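import Mathlib

/-!
# Large subsets avoiding bad triangles in Hilbert space: the threshold is `1`, not attained

`P δ` holds if and only if `δ ≥ 1` (for `δ > 0`).  Hence `δ* = 1` and the supremum is not attained.
-/

set_option autoImplicit false

namespace Pool.Agent.Results.MP_8cfbc5_co.Threshold

open Finset
open scoped ENNReal

/-- The real Hilbert space `ℓ²`. -/
abbrev H : Type := lp (fun _ : ℕ => ℝ) 2

/-- Three points form a bad triangle if two of the three distances are at most `1` and the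
remaining one is at least `1 + δ`. -/
def Bad (δ : ℝ) (x y z : H) : Prop :=
  (dist x y ≤ 1 ∧ dist y z ≤ 1 ∧ 1 + δ ≤ dist x z) ∨
  (dist x y ≤ 1 ∧ dist x z ≤ 1 ∧ 1 + δ ≤ dist y z) ∨
  (dist x z ≤ 1 ∧ dist y z ≤ 1 ∧ 1 + δ ≤ dist x y)

/-- Property `P(δ)`. -/
def P (δ : ℝ) : Prop :=
  ∃ c : ℝ, 0 < c ∧ ∀ n : ℕ, 1 ≤ n → ∀ x : Fin n → H, ∃ I : Finset (Fin n), c * n ≤ I.card ∧
    ∀ i ∈ I, ∀ j ∈ I, ∀ k ∈ I, i ≠ j → j ≠ k → i ≠ k → ¬ Bad δ (x i) (x j) (x k)

/-! ### `P(1)` holds -/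

theorem mid (x y z : H) (h1 : dist x y ≤ 1) (h2 : dist y z ≤ 1) (h3 : 2 ≤ dist x z) :
    ‖x‖ ^ 2 + ‖z‖ ^ 2 - 2 * ‖y‖ ^ 2 = 2 := by
  have hxy : dist x y = 1 := by linarith [dist_triangle x y z]
  have hyz : dist y z = 1 := by linarith [dist_triangle x y z]
  have hxz : dist x z = 2 := by linarith [dist_triangle x y z]
  rw [dist_eq_norm] at hxy hyz hxz
  have p1 := parallelogram_law_with_norm ℝ (x - y) (y - z)
  rw [sub_add_sub_cancel, hxy, hyz, hxz] at p1
  have p2 : x - y - (y - z) = 0 := by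
    rw [← norm_eq_zero]; nlinarith [norm_nonneg (x - y - (y - z))]
  have p3 : x + z = (2 : ℝ) • y := by
    rw [two_smul]
    have : x + z - (y + y) = 0 := by rw [← p2]; abel
    exact sub_eq_zero.1 this
  have p4 := parallelogram_law_with_norm ℝ x z
  rw [p3, norm_smul, hxz] at p4
  norm_num at p4
  nlinarith

/-- the colour of a point -/
noncomputable def col (x : H) : ℤ := ⌊‖x‖ ^ 2⌋ % 4

theorem col_mid (x y z : H) (hxy : col x = col y) (hyz : col y = col z) :
    ‖x‖ ^ 2 + ‖z‖ ^ 2 - 2 * ‖y‖ ^ 2 ≠ 2 := by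
  intro h
  unfold col at hxy hyz
  have hx1 := Int.floor_le (‖x‖ ^ 2)
  have hx2 := Int.lt_floor_add_one (‖x‖ ^ 2)
  have hy1 := Int.floor_le (‖y‖ ^ 2)
  have hy2 := Int.lt_floor_add_one (‖y‖ ^ 2)
  have hz1 := Int.floor_le (‖z‖ ^ 2)
  have hz2 := Int.lt_floor_add_one (‖z‖ ^ 2)
  generalize ⌊‖x‖ ^ 2⌋ = a at *
  generalize ⌊‖y‖ ^ 2⌋ = b at *
  generalize ⌊‖z‖ ^ 2⌋ = c at *
  have h1 : (0 : ℝ) < ((a + c - 2 * b : ℤ) : ℝ) := by push_cast; linarith
  have h2 : ((a + c - 2 * b : ℤ) : ℝ) < 4 := by push_cast; linarith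
  have h1' : (0 : ℤ) < a + c - 2 * b := by exact_mod_cast h1
  have h2' : a + c - 2 * b < 4 := by exact_mod_cast h2
  omega

theorem P_one (δ : ℝ) (hδ : 1 ≤ δ) : P δ := by
  refine ⟨1 / 4, by norm_num, fun n _ x => ?_⟩
  have h1 : ∃ r ∈ Finset.Ico (0 : ℤ) 4, n ≤ 4 * (univ.filter fun i => col (x i) = r).card := by
    by_contra hcon
    push Not at hcon
    have h2 : (univ : Finset (Fin n)).card = ∑ r ∈ Finset.Ico (0 : ℤ) 4,
        (univ.filter fun i => col (x i) = r).card := by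
      apply Finset.card_eq_sum_card_fiberwise
      intro i _
      simp only [Finset.coe_Ico, Set.mem_Ico, col]
      omega
    have h3 : ∑ r ∈ Finset.Ico (0 : ℤ) 4, 4 * (univ.filter fun i => col (x i) = r).card <
        ∑ r ∈ Finset.Ico (0 : ℤ) 4, n := Finset.sum_lt_sum_of_nonempty ⟨0, by simp⟩ hcon
    rw [← Finset.mul_sum, ← h2] at h3
    simp at h3
  obtain ⟨r, -, hr⟩ := h1
  refine ⟨univ.filter fun i => col (x i) = r, ?_, ?_⟩
  · have : (n : ℝ) ≤ 4 * (univ.filter fun i => col (x i) = r).card := by exact_mod_cast hr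
    linarith
  · intro i hi j hj k hk _ _ _ hbad
    simp only [Finset.mem_filter, Finset.mem_univ, true_and] at hi hj hk
    rcases hbad with ⟨h1, h2, h3⟩ | ⟨h1, h2, h3⟩ | ⟨h1, h2, h3⟩
    · exact col_mid _ _ _ (hi.trans hj.symm) (hj.trans hk.symm) (mid _ _ _ h1 h2 (by linarith))
    · rw [dist_comm] at h1
      exact col_mid _ _ _ (hj.trans hi.symm) (hi.trans hk.symm) (mid _ _ _ h1 h2 (by linarith))
    · rw [dist_comm] at h2
      exact col_mid _ _ _ (hi.trans hk.symm) (hk.trans hj.symm) (mid _ _ _ h1 h2 (by linarith))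

/-! ### The blow-up of a dense subset of a power -/

section Blow

variable {Ω : Type*} [Fintype Ω] [DecidableEq Ω]

omit [Fintype Ω] in
theorem hd_eq {N : ℕ} (x y : Fin N → Ω) :
    hammingDist x y = ∑ i, if x i ≠ y i then 1 else 0 := by
  simp [hammingDist, Finset.card_filter]

omit [Fintype Ω] in
theorem hd_cons {N : ℕ} (s t : Ω) (x y : Fin N → Ω) :
    hammingDist (Fin.cons s x : Fin (N + 1) → Ω) (Fin.cons t y) =
      (if s ≠ t then 1 else 0) + hammingDist x y := by
  rw [hd_eq, hd_eq, Fin.sum_univ_succ]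
  simp

omit [DecidableEq Ω] in
theorem sum_cons {N : ℕ} (F : (Fin (N + 1) → Ω) → ℝ) :
    ∑ x, F x = ∑ s : Ω, ∑ x : Fin N → Ω, F (Fin.cons s x) := by
  rw [← Fintype.sum_prod_type']
  exact (Fintype.sum_equiv (Fin.consEquiv fun _ => Ω) _ _ fun _ => rfl).symm

omit [DecidableEq Ω] in
theorem var_id (S : Ω → ℝ) : (Fintype.card Ω : ℝ) * ∑ s, S s ^ 2 - (∑ s, S s) ^ 2 =
    (∑ s, ∑ t, (S s - S t) ^ 2) / 2 := by
  have h : ∑ s, ∑ t, (S s - S t) ^ 2 =
      ∑ s, ∑ t, (S s ^ 2 + S t ^ 2 - 2 * (S s * S t)) := by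
    refine Finset.sum_congr rfl fun s _ => Finset.sum_congr rfl fun t _ => by ring
  rw [h]
  simp only [Finset.sum_sub_distrib, Finset.sum_add_distrib, Finset.sum_const, Finset.card_univ,
    nsmul_eq_mul, ← Finset.mul_sum, ← Finset.sum_mul]
  ring

/-- The Efron–Stein inequality for Lipschitz functions. -/
theorem efron_stein (N : ℕ) : ∀ F : (Fin N → Ω) → ℝ,
    (∀ x y, |F x - F y| ≤ hammingDist x y) →
    (Fintype.card Ω : ℝ) ^ N * ∑ x, F x ^ 2 - (∑ x, F x) ^ 2 ≤
      (N : ℝ) / 2 * ((Fintype.card Ω : ℝ) ^ N) ^ 2 := by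
  induction N with
  | zero => intro F _; simp
  | succ N ih =>
    intro F hF
    set q : ℝ := (Fintype.card Ω : ℝ) with hq
    set M : ℝ := q ^ N with hM
    have hq0 : 0 ≤ q := by positivity
    have hM0 : 0 ≤ M := by positivity
    let S : Ω → ℝ := fun s => ∑ x : Fin N → Ω, F (Fin.cons s x)
    have hcard : (Fintype.card (Fin N → Ω) : ℝ) = M := by simp [hM, hq]
    have h1 : ∀ s : Ω, M * ∑ x : Fin N → Ω, F (Fin.cons s x) ^ 2 ≤ N / 2 * M ^ 2 + S s ^ 2 := by
      intro s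
      have := ih (fun x => F (Fin.cons s x)) (fun x y => by
        have h := hF (Fin.cons s x) (Fin.cons s y)
        rw [hd_cons] at h
        simpa using h)
      simp only [S]
      linarith
    have h2 : ∀ s t : Ω, (S s - S t) ^ 2 ≤ M ^ 2 := by
      intro s t
      have h3 : |S s - S t| ≤ M := by
        simp only [S]
        rw [← Finset.sum_sub_distrib]
        calc _ ≤ ∑ x : Fin N → Ω, |F (Fin.cons s x) - F (Fin.cons t x)| :=
              Finset.abs_sum_le_sum_abs _ _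
          _ ≤ ∑ x : Fin N → Ω, (1 : ℝ) := by
              apply Finset.sum_le_sum
              intro x _
              refine (hF _ _).trans ?_
              rw [hd_cons, hammingDist_self]
              split_ifs <;> simp
          _ = M := by rw [Finset.sum_const, Finset.card_univ, nsmul_eq_mul, hcard, mul_one]
      exact sq_le_sq' (by linarith [(abs_le.1 h3).1]) (abs_le.1 h3).2
    have h3 : q * ∑ s, S s ^ 2 - (∑ s, S s) ^ 2 ≤ q ^ 2 * M ^ 2 / 2 := by
      rw [hq, var_id]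
      have : ∑ s, ∑ t, (S s - S t) ^ 2 ≤ ∑ s : Ω, ∑ t : Ω, M ^ 2 :=
        Finset.sum_le_sum fun s _ => Finset.sum_le_sum fun t _ => h2 s t
      simp only [Finset.sum_const, Finset.card_univ, nsmul_eq_mul] at this
      linarith
    rw [sum_cons (fun x => F x ^ 2), sum_cons F, pow_succ, ← hM]
    have h4 : M * q * ∑ s : Ω, ∑ x : Fin N → Ω, F (Fin.cons s x) ^ 2 ≤
        q * ∑ s : Ω, (N / 2 * M ^ 2 + S s ^ 2) := by
      rw [mul_comm M q, mul_assoc, Finset.mul_sum]
      exact mul_le_mul_of_nonneg_left (Finset.sum_le_sum fun s _ => h1 s) hq0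
    rw [Finset.sum_add_distrib, Finset.sum_const, Finset.card_univ, nsmul_eq_mul, ← hq] at h4
    push_cast
    have h5 : (∑ s : Ω, ∑ x : Fin N → Ω, F (Fin.cons s x)) = ∑ s, S s := rfl
    rw [h5]
    nlinarith

/-- Most points are within distance `t` of a dense set. -/
theorem blow {N : ℕ} (hN : 1 ≤ N) (A : Finset (Fin N → Ω)) (hA : A.Nonempty) (c : ℝ) (hc : 0 < c)
    (hAc : c * (Fintype.card Ω : ℝ) ^ N ≤ A.card) (t : ℝ) (ht : 0 < t) (ht2 : 2 * N / c ≤ t ^ 2) :
    4 * ((univ.filter fun x : Fin N → Ω => ∀ a ∈ A, t < hammingDist x a).card : ℝ) ≤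
      (Fintype.card Ω : ℝ) ^ N := by
  set M : ℝ := (Fintype.card Ω : ℝ) ^ N with hM
  have hM0 : 0 ≤ M := by positivity
  have hN' : (1 : ℝ) ≤ N := by exact_mod_cast hN
  have hcard : (Fintype.card (Fin N → Ω) : ℝ) = M := by simp [hM]
  let F : (Fin N → Ω) → ℝ := fun x => ((A.inf' hA (fun a => hammingDist x a) : ℕ) : ℝ)
  have hFle : ∀ x, ∀ a ∈ A, F x ≤ hammingDist x a := by
    intro x a ha
    exact Nat.cast_le.2 (Finset.inf'_le (fun a => hammingDist x a) ha)
  have hFat : ∀ x, ∃ a ∈ A, F x = hammingDist x a := by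
    intro x
    obtain ⟨a, ha, h⟩ := Finset.exists_mem_eq_inf' hA (fun a => hammingDist x a)
    exact ⟨a, ha, congrArg (Nat.cast : ℕ → ℝ) h⟩
  have hlip1 : ∀ x y, F x - F y ≤ hammingDist x y := by
    intro x y
    obtain ⟨a, ha, h⟩ := hFat y
    have h1 := hFle x a ha
    have h2 : (hammingDist x a : ℝ) ≤ hammingDist x y + hammingDist y a := by
      exact_mod_cast hammingDist_triangle x y a
    linarith
  have hlip : ∀ x y, |F x - F y| ≤ hammingDist x y := by
    intro x y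
    rw [abs_le]
    constructor
    · have := hlip1 y x
      rw [hammingDist_comm] at this
      linarith
    · exact hlip1 x y
  have hF0 : ∀ x, 0 ≤ F x := fun x => Nat.cast_nonneg _
  have hFA : ∀ x ∈ A, F x = 0 := by
    intro x hx
    have := hFle x x hx
    rw [hammingDist_self, Nat.cast_zero] at this
    exact le_antisymm this (hF0 x)
  have hES := efron_stein N F hlip
  have hsum : ∑ x, F x = ∑ x ∈ univ \ A, F x := by
    rw [← Finset.sum_sdiff (Finset.subset_univ A), Finset.sum_eq_zero hFA, add_zero]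
  have hCS : (∑ x, F x) ^ 2 ≤ (M - c * M) * ∑ x, F x ^ 2 := by
    have h1 : ((univ \ A : Finset (Fin N → Ω)).card : ℝ) ≤ M - c * M := by
      rw [Finset.cast_card_sdiff (Finset.subset_univ A), Finset.card_univ, hcard]
      linarith
    calc (∑ x, F x) ^ 2 ≤ ((univ \ A : Finset (Fin N → Ω)).card : ℝ) * ∑ x ∈ univ \ A, F x ^ 2 := by
          rw [hsum]; exact sq_sum_le_card_mul_sum_sq
      _ ≤ ((univ \ A : Finset (Fin N → Ω)).card : ℝ) * ∑ x, F x ^ 2 := by
          apply mul_le_mul_of_nonneg_left _ (by positivity)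
          exact Finset.sum_le_sum_of_subset_of_nonneg (Finset.subset_univ _)
            fun _ _ _ => by positivity
      _ ≤ _ := mul_le_mul_of_nonneg_right h1 (Finset.sum_nonneg fun _ _ => by positivity)
  set B := univ.filter fun x : Fin N → Ω => ∀ a ∈ A, t < hammingDist x a with hB
  have hBsum : (B.card : ℝ) * t ^ 2 ≤ ∑ x, F x ^ 2 := by
    calc (B.card : ℝ) * t ^ 2 = ∑ x ∈ B, t ^ 2 := by rw [Finset.sum_const, nsmul_eq_mul]
      _ ≤ ∑ x ∈ B, F x ^ 2 := by
          apply Finset.sum_le_sum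
          intro x hx
          rw [hB, Finset.mem_filter] at hx
          obtain ⟨a, ha, h⟩ := hFat x
          have := hx.2 a ha
          rw [h]
          exact pow_le_pow_left₀ ht.le this.le 2
      _ ≤ _ := Finset.sum_le_sum_of_subset_of_nonneg (Finset.subset_univ _)
          fun _ _ _ => by positivity
  rcases hM0.eq_or_lt with h0 | hMpos
  · have : B.card ≤ Fintype.card (Fin N → Ω) := Finset.card_le_univ _
    have h1 : (B.card : ℝ) ≤ M := by rw [← hcard]; exact_mod_cast this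
    linarith
  have h1 : c * (M * ∑ x, F x ^ 2) ≤ N / 2 * M ^ 2 := by linarith
  have h2 : c * ∑ x, F x ^ 2 ≤ N / 2 * M := by
    have : M * (c * ∑ x, F x ^ 2) ≤ M * (N / 2 * M) := by linarith
    exact le_of_mul_le_mul_left this hMpos
  have h3 : (B.card : ℝ) * (2 * N / c) ≤ ∑ x, F x ^ 2 :=
    le_trans (mul_le_mul_of_nonneg_left ht2 (by positivity)) hBsum
  have h4 : c * ((B.card : ℝ) * (2 * N / c)) = B.card * (2 * N) := by field_simp
  have h5 : (B.card : ℝ) * (2 * N) ≤ N / 2 * M := by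
    rw [← h4]; exact le_trans (mul_le_mul_of_nonneg_left h3 hc.le) h2
  have h6 : (N : ℝ) * (4 * B.card) ≤ N * M := by linarith
  exact le_of_mul_le_mul_left h6 (by linarith)

end Blow

theorem exists_good (k N : ℕ) [NeZero k] (hN : 1 ≤ N) (A : Finset (Fin N → ZMod k))
    (hA : A.Nonempty) (c : ℝ) (hc : 0 < c) (hAc : c * (k : ℝ) ^ N ≤ A.card) (t : ℝ) (ht : 0 < t)
    (ht2 : 2 * N / c ≤ t ^ 2) :
    ∃ x : Fin N → ZMod k, (∃ a ∈ A, (hammingDist x a : ℝ) ≤ t) ∧
      (∃ a ∈ A, (hammingDist (x + 1) a : ℝ) ≤ t) ∧ (∃ a ∈ A, (hammingDist (x + 2) a : ℝ) ≤ t) := by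
  have hk : (0 : ℝ) < (k : ℝ) ^ N := by
    have : (0 : ℝ) < k := by exact_mod_cast Nat.pos_of_ne_zero (NeZero.ne k)
    positivity
  have hB := blow hN A hA c hc (by rwa [ZMod.card]) t ht ht2
  rw [ZMod.card] at hB
  set B := univ.filter fun x : Fin N → ZMod k => ∀ a ∈ A, t < hammingDist x a with hBdef
  by_contra hcon
  push Not at hcon
  have hcover : (univ : Finset (Fin N → ZMod k)) ⊆ B ∪ B.image (fun x => x - 1) ∪
      B.image (fun x => x - 2) := by
    intro x _
    simp only [Finset.mem_union, Finset.mem_image]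
    by_cases h1 : ∃ a ∈ A, (hammingDist x a : ℝ) ≤ t
    · by_cases h2 : ∃ a ∈ A, (hammingDist (x + 1) a : ℝ) ≤ t
      · right
        refine ⟨x + 2, ?_, by simp⟩
        rw [hBdef, Finset.mem_filter]
        exact ⟨Finset.mem_univ _, hcon x h1 h2⟩
      · left; right
        push Not at h2
        refine ⟨x + 1, ?_, by simp⟩
        rw [hBdef, Finset.mem_filter]
        exact ⟨Finset.mem_univ _, h2⟩
    · left; left
      push Not at h1
      rw [hBdef, Finset.mem_filter]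
      exact ⟨Finset.mem_univ _, h1⟩
  have h1 : (univ : Finset (Fin N → ZMod k)).card ≤ B.card + B.card + B.card :=
    calc _ ≤ _ := Finset.card_le_card hcover
      _ ≤ _ := Finset.card_union_le _ _
      _ ≤ _ := add_le_add (le_trans (Finset.card_union_le _ _) (add_le_add le_rfl
        Finset.card_image_le)) Finset.card_image_le
  have h2 : ((univ : Finset (Fin N → ZMod k)).card : ℝ) ≤ B.card + B.card + B.card := by
    exact_mod_cast h1
  have h3 : ((univ : Finset (Fin N → ZMod k)).card : ℝ) = (k : ℝ) ^ N := by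
    simp [Finset.card_univ, ZMod.card]
  rw [h3] at h2
  linarith

/-! ### The points -/

/-- the point of `ℂ^N` attached to `x ∈ (ℤ/k)^N` -/
noncomputable def X (k N : ℕ) [NeZero k] (x : Fin N → ZMod k) : PiLp 2 (fun _ : Fin N => ℂ) :=
  WithLp.toLp 2 fun j => ZMod.stdAddChar (x j)

theorem X_hd (k N : ℕ) [NeZero k] (x y : Fin N → ZMod k) (t : ℝ) (ht : 0 ≤ t)
    (h : (hammingDist x y : ℝ) ≤ t ^ 2) : dist (X k N x) (X k N y) ≤ 2 * t := by
  rw [dist_eq_norm]
  apply le_of_sq_le_sq _ (by positivity)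
  rw [PiLp.norm_sq_eq_of_L2]
  calc _ ≤ ∑ j, (if x j ≠ y j then (4 : ℝ) else 0) := by
        apply Finset.sum_le_sum
        intro j _
        have e : (X k N x - X k N y) j = ZMod.stdAddChar (x j) - ZMod.stdAddChar (y j) := rfl
        rw [e]
        split_ifs with hxy
        · have h1 : ‖ZMod.stdAddChar (x j) - ZMod.stdAddChar (y j)‖ ≤ 2 := by
            refine (norm_sub_le _ _).trans ?_
            rw [AddChar.norm_apply, AddChar.norm_apply]; norm_num
          calc _ ≤ (2 : ℝ) ^ 2 := pow_le_pow_left₀ (norm_nonneg _) h1 2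
            _ = 4 := by norm_num
        · push Not at hxy
          rw [hxy]; simp
    _ = 4 * (hammingDist x y : ℝ) := by
        rw [hd_eq]
        push_cast
        rw [Finset.mul_sum]
        exact Finset.sum_congr rfl fun j _ => by split_ifs <;> simp
    _ ≤ (2 * t) ^ 2 := by rw [mul_pow]; linarith

theorem X_shift (k N : ℕ) [NeZero k] (x : Fin N → ZMod k) (u : ZMod k) (r : ℝ) (hr : 0 ≤ r)
    (hN : (N : ℝ) = r ^ 2) :
    dist (X k N x) (X k N (fun j => x j + u)) = ‖(ZMod.stdAddChar u : ℂ) - 1‖ * r := by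
  rw [dist_eq_norm, ← sq_eq_sq₀ (norm_nonneg _) (by positivity), PiLp.norm_sq_eq_of_L2, mul_pow,
    ← hN]
  have : ∀ j, ‖(X k N x - X k N (fun j => x j + u)) j‖ ^ 2 = ‖(ZMod.stdAddChar u : ℂ) - 1‖ ^ 2 := by
    intro j
    have e : (X k N x - X k N (fun j => x j + u)) j =
      ZMod.stdAddChar (x j) - ZMod.stdAddChar (x j + u) := rfl
    rw [e, AddChar.map_add_eq_mul, ← mul_one_sub, norm_mul, AddChar.norm_apply, one_mul,
      norm_sub_rev]
  simp only [this]
  rw [Finset.sum_const, Finset.card_univ, Fintype.card_fin, nsmul_eq_mul, mul_comm]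

/-- Finite-dimensional spaces embed in `ℓ²`. -/
theorem embed (E : Type*) [NormedAddCommGroup E] [InnerProductSpace ℝ E] [FiniteDimensional ℝ E] :
    ∃ φ : E → H, ∀ x y, dist (φ x) (φ y) = dist x y := by
  let b : HilbertBasis ℕ ℝ H := HilbertBasis.ofRepr (LinearIsometryEquiv.refl ℝ H)
  let v : Fin (Module.finrank ℝ E) → H := fun i => b (i : ℕ)
  have hv : Orthonormal ℝ v := b.orthonormal.comp _ Fin.val_injective
  refine ⟨fun x => ∑ i, (stdOrthonormalBasis ℝ E).repr x i • v i, fun x y => ?_⟩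
  rw [← (stdOrthonormalBasis ℝ E).repr.dist_map, dist_eq_norm, dist_eq_norm,
    ← sq_eq_sq₀ (norm_nonneg _) (norm_nonneg _), EuclideanSpace.norm_sq_eq,
    ← Finset.sum_sub_distrib]
  simp only [← sub_smul]
  rw [← real_inner_self_eq_norm_sq, hv.inner_sum]
  refine Finset.sum_congr rfl fun i _ => ?_
  simp [sq]

theorem not_P (δ : ℝ) (hδ0 : 0 < δ) (hδ : δ < 1) : ¬ P δ := by
  rintro ⟨c, hc, hP⟩
  have hpi := Real.pi_pos
  obtain ⟨k, hk⟩ := exists_nat_gt (2 * Real.pi / (1 - δ))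
  have hδ1 : 0 < 1 - δ := by linarith
  have hk6 : (6 : ℝ) < k := by
    have h1 : 2 * Real.pi ≤ 2 * Real.pi / (1 - δ) := by
      rw [le_div_iff₀ hδ1]; nlinarith
    linarith [Real.pi_gt_three]
  have hk6' : 6 < k := by exact_mod_cast hk6
  have : NeZero k := ⟨by omega⟩
  have : Fact (1 < k) := ⟨by omega⟩
  set z : ℂ := ZMod.stdAddChar (1 : ZMod k) with hz
  set α : ℝ := ‖z - 1‖ with hα
  set β : ℝ := ‖z + 1‖ with hβ
  have hα0 : 0 < α := by
    rw [hα, norm_pos_iff, sub_ne_zero]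
    intro h
    have := ZMod.injective_stdAddChar (N := k) (a₁ := 1) (a₂ := 0) (by rw [← hz, h]; simp)
    exact one_ne_zero this
  have hα1 : α < 1 - δ := by
    have h1 : α ≤ 2 * Real.pi / k := by
      have h2 : z = Complex.exp (Complex.I * ((2 * Real.pi / k : ℝ) : ℂ)) := by
        have := ZMod.stdAddChar_coe (N := k) 1
        rw [Int.cast_one] at this
        rw [hz, this]
        congr 1
        push_cast
        ring
      rw [hα, h2]
      refine (Real.norm_exp_I_mul_ofReal_sub_one_le).trans ?_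
      rw [Real.norm_of_nonneg (by positivity)]
    have h2 : 2 * Real.pi / k < 1 - δ := by
      rw [div_lt_iff₀ (by linarith)]
      rw [div_lt_iff₀ hδ1] at hk
      linarith
    linarith
  have hβ1 : 1 + δ < β := by
    have h1 : (2 : ℝ) ≤ β + α := by
      calc (2 : ℝ) = ‖(z + 1) - (z - 1)‖ := by
            rw [show (z + 1) - (z - 1) = 2 by ring]; simp
        _ ≤ _ := norm_sub_le _ _
    linarith
  set C : ℝ := 1 + 2 / c with hC
  have hC1 : 1 ≤ C := by rw [hC]; have : 0 < 2 / c := by positivity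
                         linarith
  have hC4 : 2 / c ≤ C ^ 4 := by
    have h1 : C ≤ C ^ 4 := le_self_pow₀ hC1 (by norm_num)
    have h2 : 2 / c ≤ C := by rw [hC]; linarith
    linarith
  obtain ⟨m, hm⟩ := exists_nat_gt (4 * C * (2 + δ) / (α * (β - 1 - δ)))
  have hβ2 : 0 < β - 1 - δ := by linarith
  have hm0 : (0 : ℝ) < m := lt_of_le_of_lt (by positivity) hm
  have hm1 : 1 ≤ m := by exact_mod_cast hm0
  have hm2 : 4 * C * (2 + δ) < m * (α * (β - 1 - δ)) := by
    rwa [div_lt_iff₀ (by positivity)] at hm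
  set N : ℕ := m ^ 4 with hN
  have hN1 : 1 ≤ N := Nat.one_le_pow _ _ hm1
  have hNr : (N : ℝ) = (m ^ 2) ^ 2 := by rw [hN]; push_cast; ring
  set s : ℝ := α * m ^ 2 + 4 * (m * C) with hs
  have hs0 : 0 < s := by positivity
  obtain ⟨φ, hφ⟩ := embed (PiLp 2 (fun _ : Fin N => ℂ))
  have hcard : Fintype.card (Fin N → ZMod k) = k ^ N := by simp [ZMod.card]
  let e : (Fin N → ZMod k) ≃ Fin (k ^ N) := Fintype.equivFinOfCardEq hcard
  obtain ⟨I, hI, hI2⟩ := hP (k ^ N) (Nat.one_le_pow _ _ (by omega))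
    (fun i => φ ((1 / s : ℝ) • X k N (e.symm i)))
  push_cast at hI
  have hkN : (0 : ℝ) < (k : ℝ) ^ N := by positivity
  have hIne : I.Nonempty := by
    rw [← Finset.card_pos]
    have : (0 : ℝ) < I.card := lt_of_lt_of_le (by positivity) hI
    exact_mod_cast this
  obtain ⟨x, ⟨a, ha, hxa⟩, ⟨b, hb, hxb⟩, ⟨d, hd, hxd⟩⟩ := exists_good k N hN1
    (I.map e.symm.toEmbedding) (by simpa using hIne) c hc (by rwa [Finset.card_map])
    ((m * C) ^ 2) (by positivity) (by
      rw [hNr]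
      calc 2 * ((m : ℝ) ^ 2) ^ 2 / c = (m : ℝ) ^ 4 * (2 / c) := by ring
        _ ≤ (m : ℝ) ^ 4 * C ^ 4 := mul_le_mul_of_nonneg_left hC4 (by positivity)
        _ = _ := by ring)
  rw [Finset.mem_map_equiv, Equiv.symm_symm] at ha hb hd
  have hmC : 0 ≤ (m : ℝ) * C := by positivity
  have hda := X_hd k N x a (m * C) hmC hxa
  have hdb := X_hd k N (x + 1) b (m * C) hmC hxb
  have hdd := X_hd k N (x + 2) d (m * C) hmC hxd
  have hs1 : dist (X k N x) (X k N (x + 1)) = α * m ^ 2 :=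
    X_shift k N x 1 (m ^ 2) (by positivity) hNr
  have hs2 : dist (X k N (x + 1)) (X k N (x + 2)) = α * m ^ 2 := by
    have h1 := X_shift k N (x + 1) 1 (m ^ 2) (by positivity) hNr
    have h2 : (fun j => (x + 1) j + 1) = x + 2 := by
      funext j
      simp only [Pi.add_apply, Pi.ofNat_apply]
      ring
    rw [h2] at h1
    exact h1
  have hs3 : dist (X k N x) (X k N (x + 2)) = α * β * m ^ 2 := by
    have h1 := X_shift k N x 2 (m ^ 2) (by positivity) hNr
    have h2 : ‖(ZMod.stdAddChar (2 : ZMod k) : ℂ) - 1‖ = α * β := by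
      rw [show (2 : ZMod k) = 1 + 1 by norm_num, AddChar.map_add_eq_mul, ← hz, hα, hβ, ← norm_mul]
      congr 1; ring
    rw [h2] at h1
    exact h1
  have hab : dist (X k N a) (X k N b) ≤ s := by
    have h1 := dist_triangle4 (X k N a) (X k N x) (X k N (x + 1)) (X k N b)
    rw [dist_comm (X k N a) (X k N x)] at h1
    linarith
  have hbd : dist (X k N b) (X k N d) ≤ s := by
    have h1 := dist_triangle4 (X k N b) (X k N (x + 1)) (X k N (x + 2)) (X k N d)
    rw [dist_comm (X k N b) (X k N (x + 1))] at h1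
    linarith
  have had : (1 + δ) * s ≤ dist (X k N a) (X k N d) := by
    have h1 := dist_triangle4 (X k N x) (X k N a) (X k N d) (X k N (x + 2))
    rw [dist_comm (X k N d)] at h1
    have h2 : (1 + δ) * s ≤ α * β * m ^ 2 - 4 * (m * C) := by
      rw [hs]
      nlinarith
    linarith
  have hdist : ∀ i j, dist (φ ((1 / s : ℝ) • X k N i)) (φ ((1 / s : ℝ) • X k N j)) =
      dist (X k N i) (X k N j) / s := by
    intro i j
    rw [hφ, dist_smul₀, Real.norm_of_nonneg (by positivity)]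
    ring
  have h1 : dist (φ ((1 / s : ℝ) • X k N a)) (φ ((1 / s : ℝ) • X k N b)) ≤ 1 := by
    rw [hdist, div_le_one hs0]; exact hab
  have h2 : dist (φ ((1 / s : ℝ) • X k N b)) (φ ((1 / s : ℝ) • X k N d)) ≤ 1 := by
    rw [hdist, div_le_one hs0]; exact hbd
  have h3 : 1 + δ ≤ dist (φ ((1 / s : ℝ) • X k N a)) (φ ((1 / s : ℝ) • X k N d)) := by
    rw [hdist, le_div_iff₀ hs0]; exact had
  have hne1 : a ≠ b := by
    rintro rfl
    linarith
  have hne2 : b ≠ d := by
    rintro rfl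
    linarith
  have hne3 : a ≠ d := by
    rintro rfl
    rw [dist_self] at h3
    linarith
  refine hI2 (e a) ha (e b) hb (e d) hd (fun h => hne1 (e.injective h))
    (fun h => hne2 (e.injective h)) (fun h => hne3 (e.injective h)) (Or.inl ?_)
  simp only [Equiv.symm_apply_apply]
  exact ⟨h1, h2, h3⟩

/-- For `δ > 0`, property `P(δ)` holds if and only if `δ ≥ 1`.  Hence `δ* = 1`, and `P(δ*)` holds,
so there is no largest `δ` for which `P(δ)` fails. -/
theorem result : (∀ δ : ℝ, 0 < δ → (P δ ↔ 1 ≤ δ)) ∧ sSup {δ : ℝ | 0 < δ ∧ ¬ P δ} = 1 := by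
  have h1 : ∀ δ : ℝ, 0 < δ → (P δ ↔ 1 ≤ δ) := by
    intro δ hδ
    refine ⟨fun h => ?_, P_one δ⟩
    by_contra hcon
    exact not_P δ hδ (not_le.1 hcon) h
  refine ⟨h1, ?_⟩
  have h2 : {δ : ℝ | 0 < δ ∧ ¬ P δ} = Set.Ioo 0 1 := by
    ext δ
    simp only [Set.mem_ofPred_eq, Set.mem_Ioo]
    constructor
    · rintro ⟨h3, h4⟩
      rw [h1 δ h3] at h4
      exact ⟨h3, not_le.1 h4⟩
    · rintro ⟨h3, h4⟩
      refine ⟨h3, ?_⟩
      rw [h1 δ h3]
      exact not_le.2 h4
  rw [h2, csSup_Ioo one_pos]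

end Pool.Agent.Results.MP_8cfbc5_co.Threshold
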